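import Mathlib

/-! Absolute values above a monomial absolute value. -/

namespace Pool.Agent.Lib.MP_8865d3_nt.St

open MvPolynomial Real

/-- `V` is a nonarchimedean absolute value of `K` whose value at a polynomial in the `u i` with
coefficients in `F` is the largest `exp (m · w)` over the exponents `m` of its monomials. -/
def Over (F : Type) {K κ : Type} [Field F] [Field K] [Algebra F K] [Fintype κ] (u : κ → K)
    (w : κ → ℝ) (V : AbsoluteValue K ℝ) : Prop :=
  IsNonarchimedean V ∧ ∀ P : MvPolynomial κ F,
    V (aeval u P) = ⨆ m : P.support, exp (∑ i, m.1 i * w i)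

end Pool.Agent.Lib.MP_8865d3_nt.St
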