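import Pool.Agent.Lib.MP_8865d3_nt.St.Trop

/-! Monomial absolute values through Hahn series. -/

namespace Pool.Agent.Lib.MP_8865d3_nt.St

open MvPolynomial Finset Real HahnSeries

section

variable {L : Type} [Field L]

open Classical in
theorem hv_na (x y : HahnSeries ℝ L) : (if x + y = 0 then 0 else exp (-(x + y).order)) ≤
    max (if x = 0 then 0 else exp (-x.order)) (if y = 0 then (0 : ℝ) else exp (-y.order)) := by
  by_cases hx : x = 0
  · simp only [hx, zero_add, if_true, le_max_right]
  by_cases hy : y = 0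
  · simp only [hy, add_zero, if_true, le_max_left]
  rw [if_neg hx, if_neg hy]
  split_ifs with h
  · positivity
  rcases min_le_iff.1 (min_order_le_order_add h) with h | h
  · exact le_max_of_le_left (exp_le_exp.2 (neg_le_neg h))
  · exact le_max_of_le_right (exp_le_exp.2 (neg_le_neg h))

open Classical in
/-- The absolute value of the order. -/
noncomputable def hv (L : Type) [Field L] : AbsoluteValue (HahnSeries ℝ L) ℝ where
  toFun x := if x = 0 then 0 else exp (-x.order)
  map_mul' x y := by
    by_cases hx : x = 0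
    · simp [hx]
    by_cases hy : y = 0
    · simp [hy]
    simp only [hx, hy, mul_eq_zero, or_self, if_false, order_mul hx hy, neg_add, exp_add]
  nonneg' x := by split_ifs <;> positivity
  eq_zero' x := by
    split_ifs with h
    exacts [iff_of_true rfl h, iff_of_false (exp_ne_zero _) h]
  add_le' x y := (hv_na x y).trans (max_le_add_of_nonneg (by split_ifs <;> positivity)
    (by split_ifs <;> positivity))

theorem hv_ne {x : HahnSeries ℝ L} (h : x ≠ 0) : hv L x = exp (-x.order) := if_neg h

theorem hv_sqrt [CharZero L] {p r : HahnSeries ℝ L} (hp : p ≠ 0) (hr : r ≠ 0)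
    (h : 2 * p.order < r.order) : ∃ s, s ^ 2 = p ^ 2 + r := by
  have e : r / p ^ 2 * p ^ 2 = r := div_mul_cancel₀ _ (pow_ne_zero 2 hp)
  have h1 := order_mul (div_ne_zero hr (pow_ne_zero 2 hp)) (pow_ne_zero 2 hp)
  rw [e, order_pow, two_nsmul] at h1
  have h2 : 0 < (r / p ^ 2).orderTop := zero_lt_orderTop_of_order (by linarith)
  refine ⟨p * PowerSeries.heval (r / p ^ 2) (PowerSeries.binomialSeries L (1 / 2 : ℚ)), ?_⟩
  have h3 := PowerSeries.binomialSeries_nat (A := L) (R := ℚ) 1
  rw [mul_pow, ← map_pow, sq (PowerSeries.binomialSeries L (1 / 2 : ℚ)),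
    ← PowerSeries.binomialSeries_add, add_halves, ← Nat.cast_one, h3, pow_one, map_add, map_one,
    PowerSeries.heval_X _ h2, mul_add, mul_one, mul_comm, e]

end

variable {k κ L : Type} [Field k] [Fintype κ] [Field L] [Algebra k L]

/-- The monomial `m` gets the order `- m · w`. -/
noncomputable def hs (x : κ → L) (w : κ → ℝ) : MvPolynomial κ k →+* HahnSeries ℝ L :=
  eval₂Hom (HahnSeries.C.comp (algebraMap k L)) fun i => single (-w i) (x i)

theorem hs_mon (x : κ → L) (w : κ → ℝ) (m : κ →₀ ℕ) (c : k) :
    hs x w (monomial m c) = single (-∑ i, m i * w i) (aeval x (monomial m c)) := by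
  have h : ∀ s : Finset κ, ∏ i ∈ s, single (-w i) (x i) ^ m i =
      single (-∑ i ∈ s, m i * w i) (∏ i ∈ s, x i ^ m i) := fun s => by
    classical
    induction s using Finset.induction_on with
    | empty => simp
    | insert i s hi ih =>
      rw [prod_insert hi, ih, single_pow, single_mul_single, prod_insert hi, sum_insert hi,
        nsmul_eq_mul, mul_neg, neg_add]
  rw [hs, eval₂Hom_monomial, aeval_monomial, Finsupp.prod_fintype _ _ fun _ => pow_zero _,
    Finsupp.prod_fintype _ _ fun _ => pow_zero _, h, RingHom.comp_apply, HahnSeries.C_apply,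
    single_mul_single, zero_add]

theorem hs_ord {x : κ → L} (hx : AlgebraicIndependent k x) (w : κ → ℝ) {P : MvPolynomial κ k}
    (hP : P ≠ 0) : hs x w P ≠ 0 ∧ (hs x w P).order = -tp P w := by
  classical
  have h : ∀ g, (hs x w P).coeff g = aeval x
      (∑ m ∈ P.support with g = -∑ i, m i * w i, monomial m (P.coeff m)) := fun g => by
    conv_lhs => rw [P.as_sum]
    simp only [map_sum, hs_mon, HahnSeries.coeff_sum, coeff_single, sum_filter, apply_ite, map_zero]
  obtain ⟨m, hm, e⟩ := exists_tp hP w
  have h1 : (hs x w P).coeff (-tp P w) ≠ 0 := by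
    rw [h]
    intro h0
    have h2 := congrArg (MvPolynomial.coeff m) (hx.eq_zero_of_aeval_eq_zero _ h0)
    simp only [MvPolynomial.coeff_sum, coeff_monomial, sum_ite_eq', mem_filter, hm, e, and_self,
      if_true, MvPolynomial.coeff_zero] at h2
    exact mem_support_iff.1 hm h2
  have h2 : hs x w P ≠ 0 := fun h0 => h1 (by rw [h0, HahnSeries.coeff_zero])
  refine ⟨h2, le_antisymm (order_le_of_coeff_ne_zero h1) ((le_order_iff_forall h2).2 fun g hg => ?_)⟩
  rw [h, filter_false_of_mem, sum_empty, map_zero]
  exact fun m hm => (hg.trans_le (neg_le_neg (le_tp hm w))).ne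

theorem hv_hs {x : κ → L} (hx : AlgebraicIndependent k x) (w : κ → ℝ) (P : MvPolynomial κ k) :
    hv L (hs x w P) = ⨆ m : P.support, exp (∑ i, m.1 i * w i) := by
  rcases eq_or_ne P 0 with rfl | hP
  · simp
  have : Nonempty P.support := (support_nonempty.2 hP).to_subtype
  obtain ⟨m, hm, e⟩ := exists_tp hP w
  rw [hv_ne (hs_ord hx w hP).1, (hs_ord hx w hP).2, neg_neg]
  exact le_antisymm (e ▸ Finite.le_ciSup (fun m : P.support => exp (∑ i, (m.1 i : ℝ) * w i))
    ⟨m, hm⟩) (ciSup_le fun m => exp_le_exp.2 (le_tp m.2 w))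

end Pool.Agent.Lib.MP_8865d3_nt.St
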