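import Pool.Agent.Lib.MP_8865d3_nt.St.Main
import Pool.Agent.Lib.MP_8865d3_nt.St.Hahn

/-! An instance: double covers of a split torus. -/

namespace Pool.Agent.Lib.MP_8865d3_nt.St

open MvPolynomial Finset Height NumberField Real Pool.Agent.Lib.MP_651af7_nt
open Tb Tr Ds
open IntermediateField (adjoin)

theorem ab_pt {Ω : Type} [Field Ω] : Abelian (⊥ : Ideal (MvPolynomial (Fin 1) Ω)) := by
  refine ⟨Unit, inferInstance, fun _ _ => 1, ⟨Ideal.isPrime_bot, fun P hP d => by
    rw [Ideal.mem_bot.1 hP, map_zero]; exact Ideal.zero_mem _, fun _ h => one_ne_zero (congrFun h 0),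
    fun _ P hP => by rw [Ideal.mem_bot.1 hP, map_zero], fun v _ _ =>
      ⟨(), ⟨v 0, funext fun a => by simp [Subsingleton.elim a 0]⟩, fun _ _ => rfl⟩⟩,
    fun _ _ => ⟨0, fun _ => 1, fun _ => isWeightedHomogeneous_one _ _, ⟨0, by simp⟩,
      fun _ _ => ⟨1, by simp⟩⟩⟩

theorem pt_pt {k K : Type} [Field k] [Field K] [Algebra k K] :
    Nc.Pt (⊥ : Ideal (MvPolynomial (Fin 1) k)) fun _ => (1 : K) := by
  refine ⟨fun P hP d => by rw [Ideal.mem_bot.1 hP, map_zero]; exact Ideal.zero_mem _, ⟨0, rfl⟩,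
    fun P d hP => ⟨fun h => ?_, fun h => by rw [Ideal.mem_bot.1 h, map_zero]⟩⟩
  have e : P = monomial (Finsupp.single 0 d) (P.coeff (Finsupp.single 0 d)) := by
    ext m
    rw [coeff_monomial]
    split_ifs with h
    · rw [h]
    · refine hP.coeff_eq_zero fun h' => h ?_
      rw [Finsupp.unique_single m, ← h', Finsupp.degree_eq_sum, Fin.sum_univ_one]
      rfl
  rw [e, aeval_monomial, Finsupp.prod, prod_eq_one fun _ _ => one_pow _, mul_one,
    map_eq_zero] at h
  rw [e, h, map_zero]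
  exact Ideal.zero_mem _

variable {k : Type} [Field k] [NumberField k] {n : ℕ}

theorem unit_ht {S : Finset (FinitePlace k)} {z : k} (h : ∀ v ∉ S, v z = 1) :
    logHeight₁ z ≤ iS S fun w => |log (w z)| := by
  rw [NumberField.logHeight₁_eq, iS_eq, finsum_eq_sum_of_support_subset (s := S) _ fun v hv =>
    by_contra fun hv' => hv (by simp only [h v hv', posLog_one])]
  exact add_le_add (sum_le_sum fun v _ => mul_le_mul_of_nonneg_left
    (max_le (abs_nonneg _) (le_abs_self _)) (Nat.cast_nonneg _))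
    (sum_le_sum fun v _ => max_le (abs_nonneg _) (le_abs_self _))

/-- The `S`-units at which `P ^ 2 + R` is a square. -/
theorem double (P R : MvPolynomial (Fin n) k) (hD : ¬IsSquare (P ^ 2 + R)) (a : Fin n → ℝ)
    (h : ∀ w : Fin n → ℝ, w ≠ 0 → 0 ≤ ∑ i, a i * w i → ∀ m ∈ R.support, ∃ m' ∈ P.support,
      ∑ i, m i * w i < 2 * ∑ i, m' i * w i) :
    ∃ Θ : MvPolynomial (Fin n) k, Θ ≠ 0 ∧ ∀ S : Finset (FinitePlace k),
      {z : Fin n → k | (∀ i, ∀ v ∉ S, v (z i) = 1) ∧ eval z Θ ≠ 0 ∧
        IsSquare (eval z (P ^ 2 + R))}.Finite := by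
  classical
  let L := FractionRing (MvPolynomial (Fin n) k)
  let ι := algebraMap (MvPolynomial (Fin n) k) L
  have hι : Function.Injective ι := IsFractionRing.injective _ _
  let f : Polynomial (MvPolynomial (Fin n) k) := Polynomial.X ^ 2 - Polynomial.C (P ^ 2 + R)
  have hf : f.Monic := Polynomial.monic_X_pow_sub_C _ two_ne_zero
  have ef : f.map ι = Polynomial.X ^ 2 - Polynomial.C (ι (P ^ 2 + R)) := by
    simp only [f, Polynomial.map_sub, Polynomial.map_pow, Polynomial.map_X, Polynomial.map_C]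
  have : Fact (Irreducible (f.map ι)) := ⟨ef ▸ X_pow_sub_C_irreducible_of_prime Nat.prime_two
    fun b hb => by
      obtain ⟨c, rfl⟩ := IsIntegrallyClosed.exists_algebraMap_eq_of_isIntegral_pow two_pos
        (hb ▸ isIntegral_algebraMap)
      exact hD ⟨c, hι (by rw [← hb, sq, map_mul])⟩⟩
  let K := AdjoinRoot (f.map ι)
  let x : Fin n → L := fun i => ι (X i)
  let u : Fin n → K := fun i => algebraMap L K (x i)
  let t : K := AdjoinRoot.root _
  have ex : ∀ Q, aeval x Q = ι Q := fun Q =>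
    (aeval_algebraMap_apply L X Q).trans (congrArg ι (aeval_X_left_apply Q))
  have eu : ∀ Q, aeval u Q = algebraMap L K (ι Q) := fun Q =>
    (aeval_algebraMap_apply K x Q).trans (congrArg _ (ex Q))
  have hx : AlgebraicIndependent k x := fun Q Q' e => hι ((ex Q).symm.trans (e.trans (ex Q')))
  let F := adjoin k (Set.range fun _ : Fin 1 => (1 : K))
  have hF : Function.Surjective (algebraMap k F) := fun c => by
    obtain ⟨d, e⟩ : c.1 ∈ (⊥ : IntermediateField k K) :=
      IntermediateField.adjoin_le_iff.2 (Set.range_subset_iff.2 fun _ => one_mem _) c.2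
    exact ⟨d, Subtype.ext e⟩
  have : Algebra.IsAlgebraic k F := ⟨fun c => (hF c).elim fun d e => e ▸ isAlgebraic_algebraMap d⟩
  have hu : AlgebraicIndependent F u := (hx.map' (f := IsScalarTower.toAlgHom k L K)
    (algebraMap L K).injective).extendScalars F
  have hm : ∀ c : L, algebraMap L K c ∈ adjoin F (Set.range u) := fun c => by
    have h1 : ∀ Q, algebraMap L K (ι Q) ∈ adjoin F (Set.range u) := fun Q => by
      rw [← eu, ← aeval_map_algebraMap F]
      exact IntermediateField.algebra_adjoin_le_adjoin F _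
        ((Algebra.adjoin_range_eq_range_aeval F u).ge ⟨_, rfl⟩)
    obtain ⟨p, q, -, rfl⟩ := IsFractionRing.div_surjective (A := MvPolynomial (Fin n) k) c
    rw [map_div₀]
    exact div_mem (h1 p) (h1 q)
  have hK : adjoin F (Set.range (Sum.elim u fun _ : Fin 1 => t)) = ⊤ := top_unique fun z _ => by
    obtain ⟨g, rfl⟩ := AdjoinRoot.mk_surjective z
    rw [← AdjoinRoot.aeval_eq, Polynomial.aeval_eq_sum_range]
    refine sum_mem fun i _ => ?_
    rw [Algebra.smul_def]
    refine mul_mem (IntermediateField.adjoin.mono _ _ _ (Set.range_subset_iff.2 fun i => ?_)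
      (hm _)) (pow_mem (IntermediateField.subset_adjoin _ _ ?_) _)
    exacts [⟨.inl i, rfl⟩, ⟨.inr 0, rfl⟩]
  have ha : Algebra.IsAlgebraic (adjoin F (Set.range u)) K := by
    let _ := ((algebraMap L K).codRestrict _ hm).toAlgebra
    have : IsScalarTower L (adjoin F (Set.range u)) K := .of_algebraMap_eq fun _ => rfl
    have : Module.Finite L K := (AdjoinRoot.powerBasis' (hf.map ι)).finite
    exact Algebra.IsAlgebraic.tower_top (K := L) _
  have hR : R ≠ 0 := fun e => hD ⟨P, by rw [e, add_zero, sq]⟩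
  have hs' : ∀ w : Fin n → ℝ, w ≠ 0 → 0 ≤ ∑ i, a i * w i + 0 → ∃ V V' : AbsoluteValue K ℝ,
      V ≠ V' ∧ Over F u w V ∧ Over F u w V' := fun w w0 hw => by
    obtain ⟨m, m1, m2⟩ := exists_tp hR w
    obtain ⟨m', m3, m4⟩ := h w w0 (hw.trans_eq (add_zero _)) m m1
    have hP : P ≠ 0 := support_nonempty.1 ⟨_, m3⟩
    have h1 : tp R w < 2 * tp P w := by linarith [le_tp m3 w]
    obtain ⟨p1, p2⟩ := hs_ord hx w hP
    obtain ⟨r1, r2⟩ := hs_ord hx w hR
    obtain ⟨s, e⟩ := hv_sqrt p1 r1 (by rw [p2, r2]; linarith)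
    have hi : Function.Injective (hs (k := k) x w) := (injective_iff_map_eq_zero _).2
      fun Q h => by_contra fun h' => (hs_ord hx w h').1 h
    have key : ∀ s, s ^ 2 = hs x w P ^ 2 + hs x w R → ∃ V : AbsoluteValue K ℝ, Over F u w V ∧
        V (t - aeval u P) = hv L (s - hs x w P) := fun s e => by
      have h2 : (f.map ι).eval₂ (IsFractionRing.lift hi : L →+* _) s = 0 := by
        rw [ef, Polynomial.eval₂_sub, Polynomial.eval₂_X_pow, Polynomial.eval₂_C,
          IsFractionRing.lift_algebraMap, map_add, map_pow, e, sub_self]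
      have h3 : ∀ Q, AdjoinRoot.lift _ s h2 (aeval u Q) = hs x w Q := fun Q => by
        rw [eu, AdjoinRoot.algebraMap_eq, AdjoinRoot.lift_of, IsFractionRing.lift_algebraMap]
      refine ⟨(hv L).comp (AdjoinRoot.lift _ s h2).injective, ⟨fun b c => ?_, fun Q => ?_⟩, ?_⟩
      · exact (congrArg (hv L) (map_add (AdjoinRoot.lift _ s h2) b c)).trans_le (hv_na _ _)
      · obtain ⟨Q, rfl⟩ := map_surjective _ hF Q
        rw [aeval_map_algebraMap, support_map_of_injective _ (algebraMap k F).injective]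
        exact (congrArg (hv L) (h3 Q)).trans (hv_hs hx w Q)
      · exact congrArg (hv L) ((map_sub (AdjoinRoot.lift _ s h2) _ _).trans
          (by rw [h3, AdjoinRoot.lift_root]))
    obtain ⟨V, v1, v2⟩ := key s e
    obtain ⟨V', v3, v4⟩ := key (-s) (neg_sq s ▸ e)
    refine ⟨V, V', fun e' => ?_, v1, v3⟩
    have h2 : hv L (s + hs x w P) = hv L (s - hs x w P) := by
      rw [← v2, e', v4, ← AbsoluteValue.map_neg, neg_add']
    have h3 : hv L (s - hs x w P) ^ 2 = exp (tp R w) := by
      rw [sq]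
      nth_rw 1 [← h2]
      rw [← map_mul, ← sq_sub_sq, e, add_sub_cancel_left, hv_ne r1, r2, neg_neg]
    have h4 : hv L (s + hs x w P + -(s - hs x w P)) ≤ max (hv L (s + hs x w P))
      (hv L (-(s - hs x w P))) := hv_na _ _
    have h5 : hv L 2 = 1 := by
      rw [← map_ofNat (HahnSeries.C : L →+* HahnSeries ℝ L), hv_ne (HahnSeries.C_ne_zero
        two_ne_zero), HahnSeries.order_C, neg_zero, exp_zero]
    rw [AbsoluteValue.map_neg, h2, max_self, show s + hs x w P + -(s - hs x w P) = 2 * hs x w P by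
      ring, map_mul, h5, one_mul, hv_ne p1, p2, neg_neg] at h4
    have h6 := pow_le_pow_left₀ (exp_nonneg _) h4 2
    rw [h3, ← exp_nat_mul, exp_le_exp] at h6
    exact h1.not_ge (by exact_mod_cast h6)
  obtain ⟨δ, hδ, h1⟩ := model (J := ⊥) (N := 0) (φ := fun _ _ => 1) (ψ := fun _ _ => 1)
    (by rw [Ideal.map_bot]; exact ab_pt) pt_pt hu hK ha (fun _ => ⟨0, by simp⟩) (fun _ => ⟨0, by simp⟩)
    (T := fun δ X Y z S => ∑ i, a i * (logHeight (X i) - logHeight (Y i)) +
      iS S fun w => 0 + δ * ∑ i, |log (w (z i))|)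
    fun E b1 b2 => half E hu b1 b2 (fun t => (ha.1 t).isIntegral) (l := fun _ => 0)
      continuous_const (fun _ _ _ => (mul_zero _).symm) hs'
  obtain ⟨Θ, c, a1, a2⟩ := h1 (δ / 2) (half_pos hδ)
  refine ⟨aeval (Sum.elim (fun _ => 1) X) Θ, fun e => a1 ?_, fun S => ?_⟩
  · have := congrArg (aeval u) e
    rw [map_zero, ← AlgHom.comp_apply, comp_aeval] at this
    refine Eq.trans ?_ this
    congr 2
    ext (_ | _) <;> simp
  obtain ⟨C, a3⟩ := a2 S
  refine (Set.Finite.pi' fun _ : Fin n => finite_setOfPred_logHeight₁_le (K := k)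
    (logHeight (fun _ : Fin 1 => (1 : k)) + 2 * C / δ)).subset fun z ⟨z1, z2, s, z3⟩ i => ?_
  have h2 := a3 (fun _ => 1) z (fun _ => s) (fun Q hQ => ?_) fun e => z2 ?_
  · simp only [sub_self, mul_zero, sum_const_zero, zero_add, iS_mul, iS_sum, map_one] at h2
    have h5 : ∀ i, oS S (dfc (z i) (fun _ : Fin (0 + 1) => 1) fun _ => 1) = 0 := fun i =>
      finsum_mem_of_eqOn_zero fun v hv => by simp [dfc, show v.1 (z i) = 1 from z1 i v hv]
    simp only [h5, sum_const_zero, mul_zero, add_zero] at h2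
    have h3 := sum_le_sum fun i (_ : i ∈ univ) => unit_ht (z1 i)
    have h4 := single_le_sum (fun i _ => zero_le_logHeight₁ (z i)) (mem_univ i)
    rw [Set.mem_ofPred_eq, ← sub_le_iff_le_add', le_div_iff₀ hδ]
    nlinarith
  · let ψ := aeval (R := k) (Sum.elim (fun _ : Fin 1 => 1) (Sum.elim (fun i => Polynomial.C (X i))
      fun _ : Fin 1 => (Polynomial.X : Polynomial (MvPolynomial (Fin n) k))))
    have e1 : ∀ Q, aeval (Sum.elim (fun _ => 1) (Sum.elim u fun _ => t)) Q =
        AdjoinRoot.mk _ ((ψ Q).map ι) := fun Q => by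
      induction Q using MvPolynomial.induction_on with
      | C c => simp [ψ]; rfl
      | add p q hp hq => simp only [map_add, hp, hq, Polynomial.map_add]
      | mul_X p j hp =>
        simp only [map_mul, hp, Polynomial.map_mul]
        rcases j with _ | _ | _ <;> simp [ψ] <;> exact .inl rfl
    have e2 : ∀ Q, eval (Sum.elim (fun _ => 1) (Sum.elim z fun _ => s)) Q =
        (ψ Q).eval₂ (eval z) s := fun Q => by
      induction Q using MvPolynomial.induction_on with
      | C c => simp [ψ]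
      | add p q hp hq => simp only [map_add, hp, hq, Polynomial.eval₂_add]
      | mul_X p j hp =>
        simp only [map_mul, hp, Polynomial.eval₂_mul]
        rcases j with _ | _ | _ <;> simp [ψ]
    obtain ⟨g, e⟩ := (Polynomial.map_dvd_map ι hι hf).1 (AdjoinRoot.mk_eq_zero.1 (e1 Q ▸ hQ))
    rw [e2, e, Polynomial.eval₂_mul, Polynomial.eval₂_sub, Polynomial.eval₂_X_pow,
      Polynomial.eval₂_C, z3, sq, sub_self, zero_mul]
  · refine Eq.trans ?_ e
    rw [← coe_aeval_eq_eval, ← coe_aeval_eq_eval, RingHom.coe_coe, RingHom.coe_coe,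
      ← AlgHom.comp_apply, comp_aeval]
    congr 2
    ext (_ | _) <;> simp

end Pool.Agent.Lib.MP_8865d3_nt.St
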