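import Pool.Agent.Lib.MP_8865d3_nt.St.Trop
import Pool.Agent.Lib.MP_8865d3_nt.Tr.Lin
import Pool.Agent.Lib.MP_8865d3_nt.Tr.Fac

/-! Local sizes at the places of `S` against tropical values. -/

namespace Pool.Agent.Lib.MP_8865d3_nt.St

open MvPolynomial Finset Height NumberField Filter Real Pool.Agent.Lib.MP_651af7_nt
open Tb Fc Tr
open IntermediateField (adjoin)

variable {k K ι κ ν β : Type} [Field k] [NumberField k] [Field K] [Algebra k K] [Fintype ι]
  [Fintype κ] [Fintype ν] {𝓕 : Filter β} {v : β → K → k} {y : ι → K} {u : κ → K} {φ ψ : κ → ν → K}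

/-- The logarithms of the sizes of the fibre coordinates. -/
noncomputable def lv (v : β → K → k) (u : κ → K) (p : β) (w : AbsoluteValue k ℝ) (i : κ) : ℝ :=
  log (w (v p (u i)))

omit [NumberField k] in
theorem sp_aeval (h : Sp 𝓕 v) {F : IntermediateField k K} (A : MvPolynomial κ F)
    {U : Finset (κ →₀ ℕ)} (hU : A.support ⊆ U) :
    ∀ᶠ p in 𝓕, v p (aeval u A) = ∑ a : U, tm v u A p a := by
  have e : aeval u A = ∑ a : U, (coeff a A : F) * ∏ i, u i ^ a.1 i := by
    rw [aeval_def, eval₂_eq', sum_coe_sort U fun a => ((coeff a A : F) : K) * ∏ i, u i ^ a i]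
    exact sum_subset hU fun a _ ha => by simp [notMem_support_iff.1 ha]
  filter_upwards [h.sum univ fun a : U => ((coeff a A : F) : K) * ∏ i, u i ^ a.1 i,
    eventually_all.2 fun a : U => (h.mul (coeff a A : F) (∏ i, u i ^ a.1 i)).and
      ((h.prod univ fun i => u i ^ a.1 i).and (eventually_all.2 fun i => h.pow (u i) (a.1 i)))]
    with p h1 h2
  rw [e, h1]
  exact sum_congr rfl fun a _ => by
    rw [(h2 a).1, (h2 a).2.1, prod_congr rfl fun i _ => (h2 a).2.2 i, tm]

theorem trop_close [Nonempty ν] (E : Env 𝓕 v y)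
    (hu : AlgebraicIndependent (adjoin k (Set.range y)) u)
    (hφ : Blk (adjoin k (Set.range y)) φ) (hψ : Blk (adjoin k (Set.range y)) ψ)
    {A : MvPolynomial κ (adjoin k (Set.range y))} (hA : A ≠ 0) :
    Sml 𝓕 (HH v y u) (NN v u φ ψ) fun p S =>
      iS S fun w => |log (w (v p (aeval u A))) - tp A (lv v u p w)| := by
  classical
  obtain ⟨U, h0, hU⟩ : ∃ U : Finset (κ →₀ ℕ), 0 ∈ U ∧ A.support ⊆ U :=
    ⟨insert 0 _, mem_insert_self _ _, subset_insert _ _⟩
  have hH := hh_nonneg v y u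
  have a0 : aeval u A ≠ 0 := fun h => hA (hu.eq_zero_of_aeval_eq_zero _ h)
  have c1 : (1 : ℝ) ≤ Fintype.card U := Nat.one_le_cast.2 (Fintype.card_pos_iff.2 ⟨⟨0, h0⟩⟩)
  refine (((lin E hu hφ hψ hA one_ne_zero isRelPrime_one_right hU
    (support_one.subset.trans (singleton_subset_iff.2 h0))).add
    (sml_sum hH U fun a _ => sml_fal E _ (coeff a A))).add
    (sml_const hH fun S => iS S fun _ => 2 * log (Fintype.card U))).mono ?_
  filter_upwards [sp_aeval E.sp A hU, E.sp.ne a0, eventually_all.2 fun i => E.sp.ne (hu.ne_zero i),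
    (eventually_all_finset A.support).2 fun a ha => E.sp.ne (a := (coeff a A : adjoin k _))
      (by exact_mod_cast mem_support_iff.1 ha), E.sp.zero, E.sp.one, E.sp.inv (aeval u A),
    tm_ne E.sp hu.ne_zero hA hU] with p p1 p2 p3 p4 p5 p6 p7 p8
  refine ⟨rfl, fun S => ⟨rfl, ?_⟩⟩
  set x := fun a : U => tm v u A p a with hx
  have f1 : FS fun w => max (ls x w)
      (ls (fun a : U => tm v u (1 : MvPolynomial κ (adjoin k (Set.range y))) p a) w) :=
    (fs_ls _).comp₂ (fs_ls _) max (max_self 0)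
  have k1 := oS_mono (S := S) (fs_pos (v p (aeval u A))) f1 fun w _ => by
    refine max_le (le_max_of_le_right ?_) (le_max_of_le_left ?_)
    · have t1 : tm v u (1 : MvPolynomial κ (adjoin k (Set.range y))) p 0 = 1 := by simp [tm, p6]
      simpa [t1] using le_ls (fun a : U => tm v u (1 : MvPolynomial κ (adjoin k (Set.range y))) p a)
        w.1 (i := ⟨0, h0⟩) (t1.trans_ne one_ne_zero)
    · obtain ⟨a, -, ha⟩ := IsNonarchimedean.finset_image_add_of_nonempty (f := w.1) w.add_le x
        ⟨⟨0, h0⟩, mem_univ _⟩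
      rw [log_le_iff_le_exp (w.1.pos p2), p1]
      exact ha.trans (le_exp_ls x w.1 a)
  have k2 : ∀ w : AbsoluteValue k ℝ, |log (w (v p (aeval u A))) - tp A (lv v u p w)| ≤
      ls x w - log (w (v p (aeval u A))) + ∑ a ∈ U, |log (w (v p (coeff a A : adjoin k _)))| +
        2 * log (Fintype.card U) := fun w => by
    have e0 := log_nonneg c1
    have e1 : log (w (v p (aeval u A))) ≤ log (Fintype.card U) + ls x w := by
      rw [log_le_iff_le_exp (w.pos p2), exp_add, exp_log (by linarith), p1, ← nsmul_eq_mul]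
      exact (w.sum_le _ _).trans (sum_le_card_nsmul _ _ _ fun a _ => le_exp_ls x w a)
    have e2 : ∀ a ∈ U, _ := fun a ha => abs_le.1 (single_le_sum (f := fun a =>
      |log (w (v p (coeff a A : adjoin k (Set.range y))))|) (fun _ _ => abs_nonneg _) ha)
    obtain ⟨a, e3, e4⟩ := exists_ls p8 w
    have e5 := le_tp (P := A) (m := a.1) (mem_support_iff.2 fun e =>
      left_ne_zero_of_mul e3 (by rw [e]; exact p5)) (lv v u p w)
    obtain ⟨m, e6, e7⟩ := exists_tp hA (lv v u p w)
    have e8 : tm v u A p m ≠ 0 :=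
      mul_ne_zero (p4 m e6) (prod_ne_zero_iff.2 fun i _ => pow_ne_zero _ (p3 i))
    have e9 := le_ls x w (i := ⟨m, hU e6⟩) e8
    rw [log_tm e3 p3] at e4
    rw [log_tm e8 p3] at e9
    simp only [lv] at e5 e7 ⊢
    exact abs_le.2 ⟨by linarith [(e2 m (hU e6)).1], by linarith [(e2 a a.2).2]⟩
  have k3 : iS S (fun w => |log (w (v p (aeval u A))) - tp A (lv v u p w)|) ≤ iS S fun w =>
      ls x w - log (w (v p (aeval u A))) + ∑ a ∈ U, |log (w (v p (coeff a A : adjoin k _)))| +
        2 * log (Fintype.card U) := iS_mono fun s => k2 _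
  have k4 := pf_split S p2
  have k5 : oS S (fun w => log (w (v p (aeval u A)))) = oS S (fun w => log⁺ (w (v p (aeval u A)))) -
      oS S fun w => log⁺ (w (v p (aeval u A))⁻¹) := by
    rw [← oS_sub (fs_pos _) (fs_pos _)]
    simp only [map_inv₀, posLog_sub_posLog_inv]
  rw [iS_add, iS_add, iS_sub, iS_sum] at k3
  rw [map_one, one_div, p7]
  linarith

omit [NumberField k] in
theorem exists_rp (h : Sp 𝓕 v) {G : Polynomial K} (hG : G.Monic) : ∃ g, Rp 𝓕 v G g := by
  have h1 : ∀ p, ∃ g : Polynomial k, ∀ n,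
      g.coeff n = if n < G.natDegree + 1 then v p (G.coeff n) else 0 := fun p =>
    ⟨∑ i ∈ range (G.natDegree + 1), Polynomial.monomial i (v p (G.coeff i)), fun n => by
      simp [Polynomial.coeff_monomial]⟩
  choose g hg using h1
  refine ⟨g, h.one.mono fun p hp => ?_⟩
  have h1 : (g p).natDegree ≤ G.natDegree :=
    Polynomial.natDegree_le_iff_coeff_eq_zero.2 fun n hn => by rw [hg, if_neg (by omega)]
  have h2 : (g p).coeff G.natDegree = 1 := by
    rw [hg, if_pos (by omega), hG.coeff_natDegree, hp]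
  exact ⟨Polynomial.monic_of_natDegree_le_of_coeff_eq_one _ h1 h2,
    Polynomial.natDegree_eq_of_le_of_coeff_ne_zero h1 (h2 ▸ one_ne_zero),
    fun j hj => by rw [hg, if_pos (by omega)]⟩

omit [NumberField k] in
theorem rp_coeff (h : Sp 𝓕 v) {G : Polynomial K} {g : β → Polynomial k} (hg : Rp 𝓕 v G g) :
    ∀ᶠ p in 𝓕, ∀ j, (g p).coeff j = v p (G.coeff j) := by
  filter_upwards [hg, h.zero] with p h1 h2 j
  rcases le_or_gt j G.natDegree with e | e
  · exact h1.2.2 j e
  · rw [Polynomial.coeff_eq_zero_of_natDegree_lt e, h2,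
      Polynomial.coeff_eq_zero_of_natDegree_lt (h1.2.1 ▸ e)]

omit [NumberField k] in
theorem rp_mul (h : Sp 𝓕 v) {G G' : Polynomial K} (hG : G.Monic) (hG' : G'.Monic)
    {g g' : β → Polynomial k} (hg : Rp 𝓕 v G g) (hg' : Rp 𝓕 v G' g') :
    Rp 𝓕 v (G * G') fun p => g p * g' p := by
  filter_upwards [hg, hg', rp_coeff h hg, rp_coeff h hg', (eventually_all_finite
    (Set.finite_Iic (G * G').natDegree)).2 fun j _ => (h.sum (antidiagonal j) fun x =>
      G.coeff x.1 * G'.coeff x.2).and ((eventually_all_finset (antidiagonal j)).2 fun x _ =>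
        h.mul (G.coeff x.1) (G'.coeff x.2))] with p h1 h2 h3 h4 h5
  refine ⟨h1.1.mul h2.1, by rw [h1.1.natDegree_mul h2.1, hG.natDegree_mul hG', h1.2.1, h2.2.1],
    fun j hj => ?_⟩
  rw [Polynomial.coeff_mul, Polynomial.coeff_mul, (h5 j hj).1]
  exact sum_congr rfl fun x hx => by rw [(h5 j hj).2 x hx, h3, h4]

theorem shr [Nonempty ν] (E : Env 𝓕 v y) (hu : AlgebraicIndependent (adjoin k (Set.range y)) u)
    (hφ : Blk (adjoin k (Set.range y)) φ) (hψ : Blk (adjoin k (Set.range y)) ψ) {t : K}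
    (ht : IsIntegral (adjoin (adjoin k (Set.range y)) (Set.range u)) t) (j : ℕ) :
    Sml 𝓕 (HH v y u) (NN v u φ ψ) fun p S => iS S fun w =>
      max (log (w (v p ((minpoly (adjoin (adjoin k (Set.range y)) (Set.range u)) t).coeff j :
        adjoin (adjoin k (Set.range y)) (Set.range u)))) -
        (minpoly (adjoin (adjoin k (Set.range y)) (Set.range u)) t).natDegree *
          log⁺ (w (v p t))) 0 := by
  have m1 := minpoly.monic ht
  have i1 := minpoly.irreducible ht
  have r1 := minpoly.aeval (adjoin (adjoin k (Set.range y)) (Set.range u)) t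
  generalize minpoly (adjoin (adjoin k (Set.range y)) (Set.range u)) t = P at *
  obtain ⟨G', hG⟩ : Polynomial.X - Polynomial.C t ∣ P.map (algebraMap _ K) :=
    Polynomial.dvd_iff_isRoot.2 (by rwa [Polynomial.IsRoot, Polynomial.eval_map_algebraMap])
  have m2 := Polynomial.monic_X_sub_C t
  have m3 : G'.Monic := m2.of_mul_monic_left (hG ▸ m1.map _)
  have d1 : (P.natDegree : ℝ) = 1 + G'.natDegree := by
    rw [← m1.natDegree_map (algebraMap _ K), hG, m2.natDegree_mul m3, Polynomial.natDegree_X_sub_C,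
      Nat.cast_add, Nat.cast_one]
  obtain ⟨g, hg⟩ := exists_rp E.sp m2
  obtain ⟨g', hg'⟩ := exists_rp E.sp m3
  have hq := rp_mul E.sp m2 m3 hg hg'
  rw [← hG] at hq
  refine ((fac E hu hφ hψ i1 m1 m2 ⟨_, hG⟩ hq hg).add
    (fac E hu hφ hψ i1 m1 m3 ⟨_, hG.trans (mul_comm _ _)⟩ hq hg')).mono ?_
  filter_upwards [hg, hg', rp_coeff E.sp hg, rp_coeff E.sp hq, E.sp.mul (algebraMap k K (-1)) t,
    E.sp.const (-1)] with p p1 p2 p3 p4 p5 p6
  refine ⟨rfl, fun S => ⟨rfl, ?_⟩⟩
  have f1 := fun (r : Polynomial k) (a : ℝ) => (fs_gn r).mul a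
  have k1 : oS S (fun w => (1 : ℕ) * gn (g p * g' p) w - P.natDegree * gn (g p) w) +
      oS S (fun w => G'.natDegree * gn (g p * g' p) w - P.natDegree * gn (g' p) w) = 0 := by
    rw [← oS_add ((f1 _ _).sub (f1 _ _)) ((f1 _ _).sub (f1 _ _))]
    refine finsum_mem_eq_zero_of_forall_eq_zero fun w _ => ?_
    have := gn_mul p1.1 p2.1 w
    beta_reduce
    rw [this, d1]
    push_cast
    ring
  have k2 := iS_nonneg (S := S) (f := fun w =>
    max (G'.natDegree * gn (g p * g' p) w - P.natDegree * gn (g' p) w) 0) fun _ => le_max_right _ _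
  have k3 : ∀ w : AbsoluteValue k ℝ, gn (g p) w ≤ log⁺ (w (v p t)) := fun w => by
    obtain ⟨i, hi⟩ := (g p).exists_eq_gaussNorm w 1
    rw [gn, hi, one_pow, mul_one]
    rcases i with _ | _ | i
    · rw [p6, map_neg, map_one, neg_one_mul, neg_one_mul] at p5
      simp [p3, p5, posLog]
    · have := p1.1.coeff_natDegree
      rw [p1.2.1, Polynomial.natDegree_X_sub_C] at this
      simp [this, posLog_nonneg]
    · rw [Polynomial.coeff_eq_zero_of_natDegree_lt (by
        rw [p1.2.1, Polynomial.natDegree_X_sub_C]; omega)]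
      simp [posLog_nonneg]
  have k4 : ∀ w : AbsoluteValue k ℝ, log (w (v p (P.coeff j))) ≤ gn (g p * g' p) w := fun w => by
    have e := p4 j
    rw [Polynomial.coeff_map, IntermediateField.algebraMap_apply] at e
    rcases eq_or_ne (v p (P.coeff j)) 0 with h | h
    · simpa [h] using gn_nonneg (p1.1.mul p2.1) w
    · exact log_le_log (w.pos h) (by simpa [e] using (g p * g' p).le_gaussNorm w zero_le_one j)
  rw [jS, jS, Polynomial.natDegree_X_sub_C]
  refine (iS_mono (g := fun w => max ((1 : ℕ) * gn (g p * g' p) w - P.natDegree * gn (g p) w) 0)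
    fun s => max_le_max_right 0 ?_).trans (by linarith)
  have := mul_le_mul_of_nonneg_left (k3 (Rt.av s)) P.natDegree.cast_nonneg
  push_cast
  linarith [k4 (Rt.av s)]

end Pool.Agent.Lib.MP_8865d3_nt.St
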