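import Pool.Agent.Lib.MP_8865d3_nt.St.Loc
import Pool.Agent.Lib.MP_8865d3_nt.Tr.Main

/-! Rational points do not approach the split part of the boundary. -/

namespace Pool.Agent.Lib.MP_8865d3_nt.St

open MvPolynomial Finset Height NumberField Filter Real Pool.Agent.Lib.MP_651af7_nt
open Tb Fc Tr Ds
open IntermediateField (adjoin)

section generic

variable {k K ι κ ν β : Type} [Field k] [NumberField k] [Field K] [Algebra k K] [Fintype ι]
  [Fintype κ] [Fintype ν] {𝓕 : Filter β} {v : β → K → k} {y : ι → K} {u : κ → K} {φ ψ : κ → ν → K}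
  [Nonempty ν] (E : Env 𝓕 v y) (hu : AlgebraicIndependent (adjoin k (Set.range y)) u)
  (hφ : Blk (adjoin k (Set.range y)) φ) (hψ : Blk (adjoin k (Set.range y)) ψ)
  (ha : ∀ t : K, IsIntegral (adjoin (adjoin k (Set.range y)) (Set.range u)) t)

include E hu hφ hψ ha

theorem big_sml {t : K} {A B : MvPolynomial κ (adjoin k (Set.range y))}
    (h : Big (adjoin k (Set.range y)) u t A B) : ∃ e : ℕ,
    Sml 𝓕 (HH v y u) (NN v u φ ψ) fun p S => iS S fun w =>
      max (tp A (lv v u p w) - tp B (lv v u p w) - e * log⁺ (w (v p t))) 0 := by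
  obtain ⟨hA, hB, j, -, e⟩ := h
  refine ⟨(minpoly (adjoin (adjoin k (Set.range y)) (Set.range u)) t).natDegree,
    (((shr E hu hφ hψ (ha t) j).add (trop_close E hu hφ hψ hA)).add
      (trop_close E hu hφ hψ hB)).mono ?_⟩
  filter_upwards [E.sp.ne fun h => hA (hu.eq_zero_of_aeval_eq_zero _ h),
    E.sp.ne fun h => hB (hu.eq_zero_of_aeval_eq_zero _ h), E.sp.inv (aeval u B),
    E.sp.mul (aeval u A) (aeval u B)⁻¹] with p p1 p2 p3 p4
  refine ⟨rfl, fun S => ⟨rfl, ?_⟩⟩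
  rw [← iS_add, ← iS_add, e, div_eq_mul_inv, p4, p3]
  refine iS_mono fun s => max_le ?_ (by positivity)
  rw [map_mul, map_inv₀, log_mul ((Rt.av s).ne_zero p1) (inv_ne_zero ((Rt.av s).ne_zero p2)),
    log_inv]
  linarith [le_max_left (log (Rt.av s (v p (aeval u A))) + -log (Rt.av s (v p (aeval u B))) -
      (minpoly (adjoin (adjoin k (Set.range y)) (Set.range u)) t).natDegree *
        log⁺ (Rt.av s (v p t))) 0,
    neg_le_abs (log (Rt.av s (v p (aeval u A))) - tp A (lv v u p (Rt.av s))),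
    le_abs_self (log (Rt.av s (v p (aeval u B))) - tp B (lv v u p (Rt.av s)))]

theorem prox {l : (κ → ℝ) → ℝ} (hl : Continuous l)
    (hl' : ∀ c : ℝ, 0 ≤ c → ∀ w, l (c • w) = c * l w)
    (hs : ∀ w ≠ 0, 0 ≤ l w → ∃ V V' : AbsoluteValue K ℝ, V ≠ V' ∧
      Over (adjoin k (Set.range y)) u w V ∧ Over (adjoin k (Set.range y)) u w V') :
    ∃ δ : ℝ, 0 < δ ∧ Sml 𝓕 (HH v y u) (NN v u φ ψ) fun p S =>
      iS S fun w => l (lv v u p w) + δ * ∑ i, |lv v u p w i| := by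
  have hH := hh_nonneg v y u
  obtain ⟨δ, hδ, Ψ, h1, h2⟩ := cover (G := fun Ψ => (∀ w, 0 ≤ Ψ w) ∧
      (∀ c : ℝ, 0 ≤ c → ∀ w, Ψ (c • w) = c * Ψ w) ∧ Sml 𝓕 (HH v y u) (NN v u φ ψ) fun p S =>
        iS S fun w => Ψ (lv v u p w))
    ⟨fun _ => le_rfl, fun _ _ _ => (mul_zero _).symm, sml_const hH fun S => iS S fun _ => 0⟩
    (fun Ψ Ψ' a b => ⟨fun w => add_nonneg (a.1 w) (b.1 w),
      fun c hc w => by simp only [a.2.1 c hc, b.2.1 c hc, mul_add],
      by simpa only [iS_add] using a.2.2.add b.2.2⟩)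
    (fun Ψ c hc a => ⟨fun w => mul_nonneg hc (a.1 w),
      fun d hd w => by simp only [a.2.1 d hd, mul_left_comm c],
      by simpa only [iS_mul] using a.2.2.mul hc hH⟩)
    (fun _ a => a.1) (fun _ a => a.2.1) hl hl' fun w w0 hw => by
      obtain ⟨V, V', a1, a2, a3⟩ := hs w w0 hw
      obtain ⟨t, A, B, A', B', b1, b2, b3⟩ := sep w0 a2 a3 a1 ha
      obtain ⟨e, c1⟩ := big_sml E hu hφ hψ ha b1
      obtain ⟨e', c2⟩ := big_sml E hu hφ hψ ha b2
      refine ⟨fun w => max (min (tp A w - tp B w) (tp A' w - tp B' w)) 0, ⟨fun _ => le_max_right _ _,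
        fun c hc w => ?_, (c1.add c2).mono ?_⟩, (((tp_cont b1.1).sub (tp_cont b1.2.1)).min
          ((tp_cont b2.1).sub (tp_cont b2.2.1))).max continuous_const, lt_max_of_lt_left b3⟩
      · simp only [tp_smul _ hc, ← mul_sub, mul_max_of_nonneg _ _ hc, mul_min_of_nonneg _ _ hc,
          mul_zero]
      filter_upwards [E.sp.inv t] with p p1
      refine ⟨rfl, fun S => ⟨rfl, ?_⟩⟩
      rw [← iS_add, p1]
      refine iS_mono fun s => ?_
      rcases le_total (Rt.av s (v p t)) 1 with h | h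
      · rw [(posLog_eq_zero_iff _).2 ((abs_of_nonneg ((Rt.av s).nonneg _)).trans_le h), mul_zero,
          sub_zero]
        exact (max_le_max_right 0 (min_le_left _ _)).trans
          (le_add_of_nonneg_right (le_max_right _ _))
      · rw [(posLog_eq_zero_iff (Rt.av s (v p t)⁻¹)).2 ((abs_of_nonneg ((Rt.av s).nonneg _)).trans_le
          ((map_inv₀ _ _).trans_le (inv_le_one_of_one_le₀ h))), mul_zero, sub_zero]
        exact (max_le_max_right 0 (min_le_right _ _)).trans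
          (le_add_of_nonneg_left (le_max_right _ _))
  exact ⟨δ, hδ, h1.2.2.mono (.of_forall fun p => ⟨rfl, fun S => ⟨rfl, iS_mono fun s => h2 _⟩⟩)⟩

omit ha [Nonempty ν] in
theorem blk_sml (a : ℝ) (i : κ) : Sml 𝓕 (HH v y u) (NN v u φ ψ) fun p S =>
    a * (logHeight (fun b => v p (φ i b)) - logHeight fun b => v p (ψ i b)) -
      a * iS S fun w => lv v u p w i := by
  have hH := hh_nonneg v y u
  have key : ∀ {χ : κ → ν → K}, Blk (adjoin k (Set.range y)) χ → (∀ᶠ p in 𝓕,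
      (fun b => v p (χ i b)) ≠ 0) ∧ Sml 𝓕 (HH v y u) (NN v u φ ψ) fun p S =>
        |iS S (ls fun b => v p (χ i b))| := fun {χ} h => by
    obtain ⟨b, hb⟩ := Function.ne_iff.1 (h.2 i)
    have h1 : ∀ᶠ p in 𝓕, (fun b => v p (χ i b)) ≠ 0 :=
      (E.sp.ne hb).mono fun p hp e => hp (congrFun e b)
    refine ⟨h1, (sml_sum hH univ fun b _ => sml_fal E _ ⟨χ i b, h.1 i b⟩).mono
      (h1.mono fun p hp => ⟨rfl, fun S => ⟨rfl, ?_⟩⟩)⟩
    have h2 : ∀ w, |ls (fun b => v p (χ i b)) w| ≤ ∑ b, |log (w (v p (χ i b)))| := fun w => by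
      obtain ⟨b, -, e⟩ := exists_ls hp w
      exact e ▸ single_le_sum (f := fun b => |log (w (v p (χ i b)))|) (fun _ _ => abs_nonneg _)
        (mem_univ b)
    rw [← iS_sum, abs_le, ← neg_one_mul, ← iS_mul]
    exact ⟨iS_mono fun s => (neg_one_mul _).trans_le (abs_le.1 (h2 _)).1,
      iS_mono fun s => (abs_le.1 (h2 _)).2⟩
  refine ((((key hφ).2.add (key hψ).2).add (sml_nn hH 1)).mul (abs_nonneg a) hH).mono ?_
  filter_upwards [(key hφ).1, (key hψ).1, E.sp.ne (hu.ne_zero i)] with p p1 p2 p3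
  refine ⟨rfl, fun S => ⟨rfl, ?_⟩⟩
  have f0 := fs_lam (v p (u i)) (fun b => v p (φ i b)) fun b => v p (ψ i b)
  have k1 : oS S (lam (v p (u i)) (fun b => v p (φ i b)) fun b => v p (ψ i b)) =
      oS S (fun w => log (w (v p (u i)))) + (oS S (ls fun b => v p (φ i b)) -
        oS S (ls fun b => v p (ψ i b))) := by
    rw [← oS_sub (fs_ls _) (fs_ls _), ← oS_add (fs_log _) ((fs_ls _).sub (fs_ls _))]
    rfl
  have k2 := oS_mono (S := S) f0 f0.abs fun _ _ => le_abs_self _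
  have k3 := oS_mono (S := S) (f0.mul (-1)) f0.abs fun _ _ => (neg_one_mul _).trans_le (neg_le_abs _)
  have k4 : _ ≤ NN v u φ ψ p S := single_le_sum (f := fun i => oS S fun w =>
    |lam (v p (u i)) (fun b => v p (φ i b)) (fun b => v p (ψ i b)) w|)
    (fun _ _ => oS_nonneg fun _ => abs_nonneg _) (mem_univ i)
  have k5 := pf_split S p3
  rw [oS_mul _ f0] at k3
  rw [← mul_sub, ht_split S p1, ht_split S p2]
  refine (le_abs_self _).trans ((abs_mul _ _).trans_le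
    (mul_le_mul_of_nonneg_left (abs_le.2 ⟨?_, ?_⟩) (abs_nonneg a))) <;> simp only [lv] <;>
    linarith [le_abs_self (iS S (ls fun b => v p (φ i b))),
      neg_le_abs (iS S (ls fun b => v p (φ i b))), le_abs_self (iS S (ls fun b => v p (ψ i b))),
      neg_le_abs (iS S (ls fun b => v p (ψ i b)))]

theorem half {a : κ → ℝ} {l : (κ → ℝ) → ℝ} (hl : Continuous l)
    (hl' : ∀ c : ℝ, 0 ≤ c → ∀ w, l (c • w) = c * l w)
    (hs : ∀ w ≠ 0, 0 ≤ ∑ i, a i * w i + l w → ∃ V V' : AbsoluteValue K ℝ, V ≠ V' ∧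
      Over (adjoin k (Set.range y)) u w V ∧ Over (adjoin k (Set.range y)) u w V') :
    ∃ δ : ℝ, 0 < δ ∧ Sml 𝓕 (HH v y u) (NN v u φ ψ) fun p S =>
      ∑ i, a i * (logHeight (fun b => v p (φ i b)) - logHeight fun b => v p (ψ i b)) +
        iS S fun w => l (fun i => log (w (v p (u i)))) + δ * ∑ i, |log (w (v p (u i)))| := by
  obtain ⟨δ, hδ, h⟩ := prox E hu hφ hψ ha (l := fun w => ∑ i, a i * w i + l w) (by fun_prop)
    (fun c hc w => by
      simp only [Pi.smul_apply, smul_eq_mul, mul_sum, mul_left_comm, hl' c hc, mul_add]) hs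
  refine ⟨δ, hδ, (h.add (sml_sum (hh_nonneg v y u) univ fun i _ =>
    blk_sml E hu hφ hψ (a i) i)).mono (.of_forall fun p => ⟨rfl, fun S => ⟨rfl, ?_⟩⟩)⟩
  simp only [iS_add, iS_mul, iS_sum, sum_sub_distrib]
  unfold lv
  linarith

end generic

variable {k : Type} [Field k] [NumberField k] {g n q N : ℕ} {J : Ideal (MvPolynomial (Fin g) k)}
  {K : Type} [Field K] [Algebra k K] {y : Fin g → K} {u : Fin n → K} {σ : Fin q → K}
  {φ ψ : Fin n → Fin (N + 1) → MvPolynomial (Fin g) k}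

omit [NumberField k] in
/-- A proper closed subset of the cover lies above a proper closed subset of the base. -/
theorem free (ha : Algebra.IsAlgebraic (adjoin (adjoin k (Set.range y)) (Set.range u)) K)
    {Θ : MvPolynomial (Fin g ⊕ Fin n ⊕ Fin q) k} (h : aeval (Sum.elim y (Sum.elim u σ)) Θ ≠ 0) :
    ∃ Θ' : MvPolynomial (Fin g ⊕ Fin n) k, aeval (Sum.elim y u) Θ' ≠ 0 ∧
      ∀ (x : Fin g → k) (z : Fin n → k) (s : Fin q → k),
        (∀ P, aeval (Sum.elim y (Sum.elim u σ)) P = 0 → eval (Sum.elim x (Sum.elim z s)) P = 0) →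
        eval (Sum.elim x z) Θ' ≠ 0 → eval (Sum.elim x (Sum.elim z s)) Θ ≠ 0 := by
  have h1 : IsAlgebraic ((adjoin (adjoin k (Set.range y)) (Set.range u)).restrictScalars k)
      (aeval (Sum.elim y (Sum.elim u σ)) Θ) := ha.1 _
  rw [IntermediateField.adjoin_adjoin_left, ← Set.Sum.elim_range,
    IntermediateField.isAlgebraic_adjoin_iff] at h1
  obtain ⟨t, ht, r, r0, e⟩ := h1.exists_nonzero_eq_adjoin_mul (mem_nonZeroDivisors_of_ne_zero h)
  have h3 : ∀ P : MvPolynomial (Fin g ⊕ Fin n) k, aeval (Sum.elim y (Sum.elim u σ))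
      (rename (Sum.map id .inl) P) = aeval (Sum.elim y u) P := fun P => by
    rw [aeval_rename]
    congr 2
    ext (_ | _) <;> rfl
  obtain ⟨Θ', e1⟩ := (Algebra.adjoin_range_eq_range_aeval k _).le r.2
  obtain ⟨R, e2⟩ : t ∈ (aeval (R := k) (Sum.elim y (Sum.elim u σ))).range := by
    refine Algebra.adjoin_induction (fun _ hx => hx ▸ ⟨Θ, rfl⟩) (fun c => ?_)
      (fun _ _ _ _ => add_mem) (fun _ _ _ _ => mul_mem) ht
    obtain ⟨P, e⟩ := (Algebra.adjoin_range_eq_range_aeval k _).le c.2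
    exact ⟨_, (h3 P).trans e⟩
  refine ⟨Θ', fun h => r0 (Subtype.ext (e1.symm.trans h)), fun x z s hx h0 h4 => h0 ?_⟩
  have h5 := hx (Θ * R - rename (Sum.map id .inl) Θ') (by
    rw [map_sub, map_mul, h3, sub_eq_zero]
    exact (congrArg _ e2).trans (e.trans e1.symm))
  rw [map_sub, map_mul, h4, zero_mul, zero_sub, neg_eq_zero, eval_rename] at h5
  refine Eq.trans ?_ h5
  congr 2
  ext (_ | _) <;> rfl

/-- From the generic point to the rational points of the model. -/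
theorem model (hA : Abelian (J.map (MvPolynomial.map (algebraMap k (AlgebraicClosure k)))))
    (D : Nc.Pt J y) (hu : AlgebraicIndependent (adjoin k (Set.range y)) u)
    (hK : adjoin (adjoin k (Set.range y)) (Set.range (Sum.elim u σ)) = ⊤)
    (ha : Algebra.IsAlgebraic (adjoin (adjoin k (Set.range y)) (Set.range u)) K)
    (hφ : ∀ i, ∃ a, aeval y (φ i a) ≠ 0) (hψ : ∀ i, ∃ a, aeval y (ψ i a) ≠ 0)
    {T : ℝ → (Fin n → Fin (N + 1) → k) → (Fin n → Fin (N + 1) → k) → (Fin n → k) →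
      Finset (FinitePlace k) → ℝ}
    (h : ∀ {𝓕 : Filter (Fin g ⊕ Fin n ⊕ Fin q → k)} {v : _ → K → k}, Env 𝓕 v y →
      (Blk (adjoin k (Set.range y)) fun i a => aeval y (φ i a)) →
      (Blk (adjoin k (Set.range y)) fun i a => aeval y (ψ i a)) → ∃ δ : ℝ, 0 < δ ∧
        Sml 𝓕 (HH v y u) (NN v u (fun i a => aeval y (φ i a)) fun i a => aeval y (ψ i a))
          fun p S => T δ (fun i a => v p (aeval y (φ i a))) (fun i a => v p (aeval y (ψ i a)))
            (fun i => v p (u i)) S) :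
    ∃ δ : ℝ, 0 < δ ∧ ∀ ε : ℝ, 0 < ε → ∃ (Θ : MvPolynomial (Fin g ⊕ Fin n) k) (c : ℝ),
      aeval (Sum.elim y u) Θ ≠ 0 ∧ ∀ S : Finset (FinitePlace k), ∃ C : ℝ,
        ∀ (x : Fin g → k) (z : Fin n → k) (s : Fin q → k),
        (∀ P, aeval (Sum.elim y (Sum.elim u σ)) P = 0 → eval (Sum.elim x (Sum.elim z s)) P = 0) →
        eval (Sum.elim x z) Θ ≠ 0 →
        T δ (fun i a => eval x (φ i a)) (fun i a => eval x (ψ i a)) z S ≤
          ε * (logHeight x + ∑ i, logHeight₁ (z i)) + c * ∑ i, oS S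
            (dfc (z i) (fun a => eval x (φ i a)) fun a => eval x (ψ i a)) + C := by
  obtain ⟨v, h0, hv⟩ := sp_top (k := k) hK
  have w2 : ∀ P, ∀ᶠ p in gen k (Sum.elim y (Sum.elim u σ)),
      v p (aeval y P) = eval (fun a => p (.inl a)) P := fun P => by
    filter_upwards [hv, h0.aeval y P] with p p1 p2
    rw [p2, funext p1.1]
  have b1 : ∀ {φ : Fin n → Fin (N + 1) → MvPolynomial (Fin g) k}, (∀ i, ∃ a, aeval y (φ i a) ≠ 0) →
      Blk (adjoin k (Set.range y)) fun i a => aeval y (φ i a) := fun hφ =>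
    ⟨fun i a => IntermediateField.algebra_adjoin_le_adjoin k _
      ((Algebra.adjoin_range_eq_range_aeval k y).ge ⟨_, rfl⟩), fun i => Function.ne_iff.2 (hφ i)⟩
  obtain ⟨δ, hδ, h1⟩ := h (env (Nf.dn Nf.cf D hA) h0) (b1 hφ) (b1 hψ)
  refine ⟨δ, hδ, fun ε hε => ?_⟩
  obtain ⟨c, W, hW, k1⟩ := h1 ε hε
  choose i₁ hi₁ using hφ
  choose i₂ hi₂ using hψ
  obtain ⟨Θ, a1, a2⟩ := inter_mem hW (hv.and ((eventually_all.2 fun i => eventually_all.2
    fun a => (w2 (φ i a)).and (w2 (ψ i a))).and (eventually_all.2 fun i =>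
      (h0.ne (hu.ne_zero i)).and ((h0.ne (hi₁ i)).and (h0.ne (hi₂ i))))))
  obtain ⟨Θ', a3, a4⟩ := free ha a1
  refine ⟨Θ', c, a3, fun S => (k1 S).imp fun C k2 x z s hx hΘ => ?_⟩
  obtain ⟨p1, ⟨p2, p3⟩, p5, p6⟩ := a2 _ hx (a4 x z s hx hΘ)
  have p4 : ∀ i, v (Sum.elim x (Sum.elim z s)) (u i) = z i := fun i => p3 (.inl i)
  have e1 : ∀ i w, |lam (z i) (fun a => eval x (φ i a)) (fun a => eval x (ψ i a)) w| = _ :=
    fun i => dfc_eq ((p4 i).symm.trans_ne (p6 i).1) ((p5 i _).1.symm.trans_ne (p6 i).2.1)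
      ((p5 i _).2.symm.trans_ne (p6 i).2.2)
  simpa only [HH, NN, p2, p4, fun i a => (p5 i a).1, fun i a => (p5 i a).2, Sum.elim_inl, e1]
    using k2 _ p1

end Pool.Agent.Lib.MP_8865d3_nt.St
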