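import Pool.Agent.Lib.MP_8865d3_nt.St.Defs

/-! Tropical values, and a function that separates two absolute values. -/

namespace Pool.Agent.Lib.MP_8865d3_nt.St

open MvPolynomial Finset Real
open IntermediateField (adjoin)

variable {F K κ : Type} [Field F] [Field K] [Algebra F K] [Fintype κ] {u : κ → K} {w : κ → ℝ}
  {V V' : AbsoluteValue K ℝ} {P : MvPolynomial κ F}

/-- The largest weight of a monomial. -/
noncomputable def tp (P : MvPolynomial κ F) (w : κ → ℝ) : ℝ := ⨆ m : P.support, ∑ i, m.1 i * w i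

theorem le_tp {m : κ →₀ ℕ} (hm : m ∈ P.support) (w : κ → ℝ) : ∑ i, m i * w i ≤ tp P w :=
  Finite.le_ciSup (fun m : P.support => ∑ i, (m.1 i : ℝ) * w i) ⟨m, hm⟩

theorem exists_tp (hP : P ≠ 0) (w : κ → ℝ) : ∃ m ∈ P.support, tp P w = ∑ i, m i * w i := by
  have : Nonempty P.support := (support_nonempty.2 hP).to_subtype
  obtain ⟨m, hm⟩ := exists_eq_ciSup_of_finite (f := fun m : P.support => ∑ i, (m.1 i : ℝ) * w i)
  exact ⟨m, m.2, hm.symm⟩

theorem tp_smul (P : MvPolynomial κ F) {c : ℝ} (hc : 0 ≤ c) (w : κ → ℝ) :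
    tp P (c • w) = c * tp P w := by
  simp only [tp, Real.mul_iSup_of_nonneg hc, Pi.smul_apply, smul_eq_mul, mul_sum, mul_left_comm]

theorem tp_cont (hP : P ≠ 0) : Continuous (tp P) := by
  have : Nonempty P.support := (support_nonempty.2 hP).to_subtype
  have h := Continuous.finset_sup'_apply (s := univ) univ_nonempty
    (f := fun (m : P.support) (w : κ → ℝ) => ∑ i, (m.1 i : ℝ) * w i) fun _ _ => by fun_prop
  simp only [sup'_univ_eq_ciSup] at h
  exact h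

theorem Over.tp (h : Over F u w V) (hP : P ≠ 0) : V (aeval u P) = exp (tp P w) := by
  have : Nonempty P.support := (support_nonempty.2 hP).to_subtype
  obtain ⟨m, hm, e⟩ := exists_tp hP w
  rw [h.2]
  exact le_antisymm (ciSup_le fun m => exp_le_exp.2 (le_tp m.2 w))
    (e ▸ Finite.le_ciSup (fun m : P.support => exp (∑ i, (m.1 i : ℝ) * w i)) ⟨m, hm⟩)

theorem Over.var (h : Over F u w V) (i : κ) : V (u i) = exp (w i) := by
  classical
  obtain ⟨m, hm, e⟩ := exists_tp (X_ne_zero (R := F) i) w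
  rw [support_X, mem_singleton] at hm
  have := h.tp (X_ne_zero (R := F) i)
  rw [aeval_X, e, hm] at this
  simpa [Finsupp.single_apply, ite_mul] using this

theorem sep_lt (hw : w ≠ 0) (h : Over F u w V) (h' : Over F u w V') {t : K} (ht : V' t < V t) :
    ∃ s : K, 1 < V s ∧ 1 < V' s⁻¹ := by
  obtain ⟨i, hi⟩ := Function.ne_iff.1 hw
  have t0 : t ≠ 0 := fun e => by simp [e] at ht
  have u0 : u i ≠ 0 := fun e => (exp_pos (w i)).ne (by rw [← h.var, e, map_zero])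
  have hi' : 0 < |w i| := abs_pos.2 hi
  have h1 := sub_pos.2 (log_lt_log (V'.pos t0) ht)
  obtain ⟨N, hN⟩ := exists_nat_gt (|w i| / (log (V t) - log (V' t)))
  rw [div_lt_iff₀ h1] at hN
  obtain ⟨b, h2, h3⟩ : ∃ b : ℤ, N * log (V' t) < b * |w i| ∧ b * |w i| < N * log (V t) := by
    refine ⟨⌊N * log (V' t) / |w i|⌋ + 1, ?_, ?_⟩
    · rw [← div_lt_iff₀ hi', Int.cast_add, Int.cast_one]
      exact Int.lt_floor_add_one _
    · have := (le_div_iff₀ hi').1 (Int.floor_le (N * log (V' t) / |w i|))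
      push_cast
      linarith
  obtain ⟨c, hc⟩ : ∃ c : ℤ, c * w i = b * |w i| := by
    rcases abs_choice (w i) with e | e
    · exact ⟨b, by rw [e]⟩
    · exact ⟨-b, by rw [e]; push_cast; ring⟩
  have key : ∀ {U : AbsoluteValue K ℝ}, Over F u w U →
      U (t ^ N / u i ^ c) = exp (N * log (U t) - b * |w i|) := fun {U} hU => by
    rw [map_div₀, map_pow, map_zpow₀, hU.var, exp_sub, ← hc, ← log_pow,
      exp_log (pow_pos (U.pos t0) _), ← rpow_intCast, ← exp_mul, mul_comm]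
  refine ⟨t ^ N / u i ^ c, ?_, ?_⟩
  · rw [key h]
    exact one_lt_exp_iff.2 (by linarith)
  · rw [map_inv₀, key h', ← exp_neg]
    exact one_lt_exp_iff.2 (by linarith)

theorem big_coeff {L : Type} [Field L] [Algebra L K] (hV : IsNonarchimedean V) {t : K}
    (ht : IsIntegral L t) (h : 1 < V t) :
    ∃ j ≤ (minpoly L t).natDegree, 1 < V (algebraMap L K ((minpoly L t).coeff j)) := by
  by_contra hc
  push Not at hc
  have h1 := minpoly.aeval L t
  obtain ⟨e, he⟩ := Nat.exists_eq_succ_of_ne_zero (minpoly.natDegree_pos ht).ne'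
  rw [Polynomial.aeval_eq_sum_range, sum_range_succ, (minpoly.monic ht).coeff_natDegree, one_smul,
    add_eq_zero_iff_neg_eq, he] at h1
  obtain ⟨j, hj, h2⟩ := hV.finset_image_add_of_nonempty
    (fun j => (minpoly L t).coeff j • t ^ j) (nonempty_range_add_one (n := e))
  have h3 := mem_range.1 hj
  rw [← V.map_neg, h1, Algebra.smul_def, map_mul, map_pow, map_pow] at h2
  exact (h2.trans (mul_le_of_le_one_left (by positivity) (hc j (by omega)))).not_gt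
    (pow_lt_pow_right₀ h h3)

/-- A coefficient of the minimal polynomial has positive weight. -/
def Big (F : Type) {K κ : Type} [Field F] [Field K] [Algebra F K] (u : κ → K) (t : K)
    (A B : MvPolynomial κ F) : Prop :=
  A ≠ 0 ∧ B ≠ 0 ∧ ∃ j ≤ (minpoly (adjoin F (Set.range u)) t).natDegree,
    ((minpoly (adjoin F (Set.range u)) t).coeff j : K) = aeval u A / aeval u B

theorem big_of (h : Over F u w V) {t : K} (ht : IsIntegral (adjoin F (Set.range u)) t)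
    (h1 : 1 < V t) : ∃ A B, Big F u t A B ∧ 0 < tp A w - tp B w := by
  obtain ⟨j, hj, h2⟩ := big_coeff h.1 ht h1
  obtain ⟨A, B, e⟩ := (IntermediateField.mem_adjoin_range_iff F u _).1
    ((minpoly (adjoin F (Set.range u)) t).coeff j).2
  rw [IntermediateField.algebraMap_apply, e] at h2
  have hA : A ≠ 0 := fun e => by norm_num [e] at h2
  have hB : B ≠ 0 := fun e => by norm_num [e] at h2
  rw [map_div₀, h.tp hA, h.tp hB, ← exp_sub] at h2
  exact ⟨A, B, ⟨hA, hB, j, hj, e⟩, one_lt_exp_iff.1 h2⟩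

theorem sep (hw : w ≠ 0) (h : Over F u w V) (h' : Over F u w V') (hne : V ≠ V')
    (ha : ∀ t : K, IsIntegral (adjoin F (Set.range u)) t) : ∃ (t : K) (A B A' B' : _),
      Big F u t A B ∧ Big F u t⁻¹ A' B' ∧ 0 < min (tp A w - tp B w) (tp A' w - tp B' w) := by
  have key : ∀ {V V' : AbsoluteValue K ℝ}, Over F u w V → Over F u w V' → ∀ t, V' t < V t →
      ∃ (t : K) (A B A' B' : _), Big F u t A B ∧ Big F u t⁻¹ A' B' ∧
        0 < min (tp A w - tp B w) (tp A' w - tp B' w) := fun h h' t ht => by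
    obtain ⟨s, h1, h2⟩ := sep_lt hw h h' ht
    obtain ⟨A, B, h3, h4⟩ := big_of h (ha s) h1
    obtain ⟨A', B', h5, h6⟩ := big_of h' (ha s⁻¹) h2
    exact ⟨s, A, B, A', B', h3, h5, lt_min h4 h6⟩
  obtain ⟨t, ht⟩ := DFunLike.ne_iff.1 hne
  exact ht.lt_or_gt.elim (key h' h t) (key h h' t)

/-- Finitely many test functions dominate on the whole space. -/
theorem cover {G : ((κ → ℝ) → ℝ) → Prop} (h0 : G fun _ => 0)
    (h1 : ∀ Ψ Ψ', G Ψ → G Ψ' → G fun w => Ψ w + Ψ' w)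
    (h2 : ∀ Ψ (c : ℝ), 0 ≤ c → G Ψ → G fun w => c * Ψ w) (h3 : ∀ Ψ, G Ψ → ∀ w, 0 ≤ Ψ w)
    (h4 : ∀ Ψ, G Ψ → ∀ c : ℝ, 0 ≤ c → ∀ w, Ψ (c • w) = c * Ψ w) {l : (κ → ℝ) → ℝ}
    (hl : Continuous l) (hl' : ∀ c : ℝ, 0 ≤ c → ∀ w, l (c • w) = c * l w)
    (h : ∀ w ≠ 0, 0 ≤ l w → ∃ Ψ, G Ψ ∧ Continuous Ψ ∧ 0 < Ψ w) :
    ∃ δ : ℝ, 0 < δ ∧ ∃ Ψ, G Ψ ∧ ∀ w, l w + δ * ∑ i, |w i| ≤ Ψ w := by
  have n0 : ∀ w : κ → ℝ, 0 ≤ ∑ i, |w i| := fun w => sum_nonneg fun _ _ => abs_nonneg _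
  obtain ⟨δ, hδ, Ψ, hΨ, h5⟩ := (isCompact_sphere (0 : κ → ℝ) 1).induction_on
    (p := fun U => ∃ δ : ℝ, 0 < δ ∧ ∃ Ψ, G Ψ ∧ ∀ w ∈ U, l w + δ * ∑ i, |w i| ≤ Ψ w)
    ⟨1, one_pos, _, h0, fun _ h => h.elim⟩
    (fun _ _ hs ⟨δ, a, Ψ, b, c⟩ => ⟨δ, a, Ψ, b, fun w hw => c w (hs hw)⟩)
    (fun _ _ ⟨δ, a, Ψ, b, c⟩ ⟨δ', a', Ψ', b', c'⟩ => ⟨min δ δ', lt_min a a', _, h1 _ _ b b',
      fun w hw => by
        have e1 := mul_le_mul_of_nonneg_right (min_le_left δ δ') (n0 w)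
        have e2 := mul_le_mul_of_nonneg_right (min_le_right δ δ') (n0 w)
        rcases hw with hw | hw
        · linarith [c w hw, h3 _ b' w]
        · linarith [c' w hw, h3 _ b w]⟩)
    fun w hw => by
      have w0 : w ≠ 0 := fun e => by simp [e] at hw
      obtain ⟨δ, a, Ψ, b, c, d⟩ : ∃ δ : ℝ, 0 < δ ∧ ∃ Ψ, G Ψ ∧ Continuous Ψ ∧
          l w + δ * ∑ i, |w i| < Ψ w := by
        rcases lt_or_ge (l w) 0 with e | e
        · refine ⟨-l w / (∑ i, |w i| + 1), div_pos (neg_pos.2 e) (by linarith [n0 w]), _, h0,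
            continuous_const, ?_⟩
          rw [div_mul_eq_mul_div, ← lt_sub_iff_add_lt', div_lt_iff₀ (by linarith [n0 w])]
          linarith
        · obtain ⟨Ψ, b, c, d⟩ := h w w0 e
          refine ⟨1, one_pos, _, h2 Ψ ((l w + ∑ i, |w i| + 1) / Ψ w)
            (div_nonneg (by linarith [n0 w]) d.le) b, by fun_prop, ?_⟩
          rw [div_mul_cancel₀ _ d.ne']
          linarith
      exact ⟨_, mem_nhdsWithin_of_mem_nhds ((isOpen_lt (f := fun w => l w + δ * ∑ i, |w i|)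
        (by fun_prop) c).mem_nhds d), δ, a, Ψ, b, fun w hw => le_of_lt hw⟩
  refine ⟨δ, hδ, Ψ, hΨ, fun w => ?_⟩
  rcases eq_or_ne w 0 with rfl | hw
  · have := hl' 0 le_rfl 0
    rw [zero_mul, zero_smul] at this
    simpa [this] using h3 Ψ hΨ 0
  have h6 := mul_le_mul_of_nonneg_left (h5 (‖w‖⁻¹ • w) (by simp [norm_smul, hw])) (norm_nonneg w)
  have h7 : ‖w‖ • ‖w‖⁻¹ • w = w := smul_inv_smul₀ (norm_ne_zero_iff.2 hw) w
  rw [← h4 Ψ hΨ _ (norm_nonneg w), mul_add, ← hl' _ (norm_nonneg w), h7, mul_left_comm,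
    mul_sum univ _ ‖w‖] at h6
  refine le_of_eq_of_le ?_ h6
  congr 2
  refine sum_congr rfl fun i _ => ?_
  rw [← abs_of_nonneg (norm_nonneg w), ← abs_mul, abs_norm, ← smul_eq_mul, ← Pi.smul_apply, h7]

end Pool.Agent.Lib.MP_8865d3_nt.St
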